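import Pool.Agent.Results.MP_fbe9f6_co.RamseyClasses

/-!
# MP_37c966: the chromatic distance of two graphs is at most two

All graphs are finite with at least two vertices; containment is as induced subgraph.
-/

namespace Pool.Agent.Results.MP_37c966_co.DistanceAtMostTwo

/-- `c` is a colouring of the vertices of `H` such that no colour class induces a subgraph of `H`
which contains `F` as an induced subgraph. -/
def FreeColouring {W U κ : Type} (H : SimpleGraph W) (F : SimpleGraph U) (c : W → κ) : Prop :=
  ∀ i : κ, IsEmpty (F ↪g H.induce {v | c v = i})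

/-- `χ(H : -F) = n`: the least `k` such that `V(H)` can be partitioned into (at most) `k` classes
without `F` is `n`. -/
def ChiFreeEq {W U : Type} (H : SimpleGraph W) (F : SimpleGraph U) (n : ℕ) : Prop :=
  IsLeast {k : ℕ | ∃ c : W → Fin k, FreeColouring H F c} n

/-- `F ≍ G`: for every `n ≥ 1` some finite graph `H` has `χ(H : -F) = χ(H : -G) = n`. -/
def Related {U V : Type} (F : SimpleGraph U) (G : SimpleGraph V) : Prop :=
  ∀ n : ℕ, 1 ≤ n → ∃ (W : Type) (_ : Finite W) (H : SimpleGraph W),
    ChiFreeEq H F n ∧ ChiFreeEq H G n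

/-- There is a chain `F ≅ R 0 ≍ R 1 ≍ ... ≍ R k ≅ G` of finite graphs with at least two vertices. -/
def Chain {U V : Type} (F : SimpleGraph U) (G : SimpleGraph V) (k : ℕ) : Prop :=
  ∃ (X : Fin (k + 1) → Type) (_ : ∀ i, Finite (X i)) (_ : ∀ i, Nontrivial (X i))
    (R : ∀ i, SimpleGraph (X i)), Nonempty (F ≃g R 0) ∧
    (∀ i : Fin k, Related (R i.castSucc) (R i.succ)) ∧ Nonempty (R (Fin.last k) ≃g G)

/-- The chromatic distance `d_c(F, G)`. -/
noncomputable def chromaticDistance {U V : Type} (F : SimpleGraph U) (G : SimpleGraph V) : ℕ :=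
  sInf {k : ℕ | Chain F G k}

open Pool.Agent.Results.MP_fbe9f6_co.BipartiteRelated in
theorem related_of {U V : Type} [Nontrivial U] [Nontrivial V] {F : SimpleGraph U}
    {G : SimpleGraph V} (h : ChromaticallyRelated F G) : Related F G := by
  intro n hn
  rcases Nat.lt_or_ge 1 n with h2 | h1
  · exact h n h2
  · obtain rfl : n = 1 := by omega
    have key : ∀ {T : Type} [Nontrivial T] (L : SimpleGraph T),
        ChiFreeEq (⊥ : SimpleGraph Unit) L 1 := by
      intro T _ L
      refine ⟨⟨fun _ => 0, fun i => ⟨fun f => ?_⟩⟩, ?_⟩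
      · obtain ⟨x, y, hxy⟩ := exists_pair_ne T
        exact hxy (f.injective (Subtype.ext rfl))
      · rintro k ⟨c, -⟩
        have := (c ()).2
        omega
    exact ⟨Unit, inferInstance, ⊥, key F, key G⟩

open Pool.Agent.Results.MP_fbe9f6_co.BipartiteRelated in
/-- Neither graph contains the other, and one is complete or edgeless: they are related. -/
theorem related_of_not {U V : Type} [Finite U] [Finite V] [Nontrivial U] [Nontrivial V]
    (F : SimpleGraph U) (G : SimpleGraph V) (h : F = ⊤ ∨ F = ⊥)
    (h1 : ∃ c : U → Fin 2, IsFreeColoring F G c) (h2 : ∃ c : V → Fin 2, IsFreeColoring G F c) :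
    Related F G := by
  refine related_of ((Pool.Agent.Results.MP_fbe9f6_co.RamseyClasses.result.{0, 0, 0}.2.1 U V F G ?_).2
    ⟨h1, h2⟩)
  rcases h with h | h
  · exact Or.inl h
  · exact Or.inr (Or.inl h)

open Pool.Agent.Results.MP_fbe9f6_co.BipartiteRelated in
theorem free_const {W U : Type} (H : SimpleGraph W) (F : SimpleGraph U) (h : IsEmpty (F ↪g H)) :
    ∃ c : W → Fin 2, IsFreeColoring H F c :=
  ⟨fun _ => 0, fun _ => ⟨fun f => h.false (f.trans (SimpleGraph.Embedding.induce _))⟩⟩

theorem related_symm {U V : Type} {F : SimpleGraph U} {G : SimpleGraph V} (h : Related F G) :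
    Related G F := by
  intro n hn
  obtain ⟨W, hW, H, h1, h2⟩ := h n hn
  exact ⟨W, hW, H, h2, h1⟩

/-- a large complete graph is related to every non-complete graph -/
theorem top_related {V : Type} [Finite V] [Nontrivial V] (G : SimpleGraph V) (hG : G ≠ ⊤)
    (n : ℕ) (hn : Nat.card V < n) : Related (⊤ : SimpleGraph (Fin n)) G := by
  have : Fintype V := Fintype.ofFinite V
  have h2 : 2 ≤ n := by
    have := Finite.one_lt_card (α := V)
    omega
  have : Nontrivial (Fin n) := Fin.nontrivial_iff_two_le.2 h2
  refine related_of_not _ _ (Or.inl rfl) (free_const _ _ ⟨fun f => hG ?_⟩)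
    (free_const _ _ ⟨fun f => ?_⟩)
  · ext x y
    rw [SimpleGraph.top_adj]
    refine ⟨fun h => h.ne, fun h => ?_⟩
    have := f.map_rel_iff' (a := x) (b := y)
    exact this.1 (fun h' => h (f.injective h'))
  · have := Nat.card_le_card_of_injective f f.injective
    rw [Nat.card_eq_fintype_card, Fintype.card_fin] at this
    omega

/-- a large edgeless graph is related to every graph with an edge -/
theorem bot_related {V : Type} [Finite V] [Nontrivial V] (G : SimpleGraph V) (hG : G ≠ ⊥)
    (n : ℕ) (hn : Nat.card V < n) : Related (⊥ : SimpleGraph (Fin n)) G := by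
  have : Fintype V := Fintype.ofFinite V
  have h2 : 2 ≤ n := by
    have := Finite.one_lt_card (α := V)
    omega
  have : Nontrivial (Fin n) := Fin.nontrivial_iff_two_le.2 h2
  refine related_of_not _ _ (Or.inr rfl) (free_const _ _ ⟨fun f => hG ?_⟩)
    (free_const _ _ ⟨fun f => ?_⟩)
  · ext x y
    rw [SimpleGraph.bot_adj, iff_false]
    intro h
    have := f.map_rel_iff' (a := x) (b := y)
    exact this.2 h
  · have := Nat.card_le_card_of_injective f f.injective
    rw [Nat.card_eq_fintype_card, Fintype.card_fin] at this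
    omega

open Pool.Agent.Results.MP_fbe9f6_co.BipartiteRelated in
/-- every complete graph is related to itself -/
theorem top_self (U : Type) [Finite U] [Nontrivial U] :
    Related (⊤ : SimpleGraph U) (⊤ : SimpleGraph U) := by
  have key : ∃ c : U → Fin 2, IsFreeColoring (⊤ : SimpleGraph U) (⊤ : SimpleGraph U) c := by
    classical
    obtain ⟨x, y, hxy⟩ := exists_pair_ne U
    refine ⟨fun v => if v = x then 0 else 1, fun i => ⟨fun f => ?_⟩⟩
    have hsurj : Function.Surjective (fun v => (f v).1) := by
      apply Finite.surjective_of_injective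
      intro a b hab
      exact f.injective (Subtype.ext hab)
    obtain ⟨a, ha⟩ := hsurj x
    obtain ⟨b, hb⟩ := hsurj y
    have h1 : (if (f a).1 = x then (0 : Fin 2) else 1) = i := (f a).2
    have h2 : (if (f b).1 = x then (0 : Fin 2) else 1) = i := (f b).2
    dsimp only at ha hb
    rw [if_pos ha] at h1
    rw [if_neg (by rw [hb]; exact hxy.symm)] at h2
    rw [← h1] at h2
    exact absurd h2 (by decide)
  exact related_of_not _ _ (Or.inl rfl) key key

theorem exists_between {U V : Type} [Finite U] [Finite V] [Nontrivial U] [Nontrivial V]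
    (F : SimpleGraph U) (G : SimpleGraph V) :
    ∃ (X : Type) (_ : Finite X) (_ : Nontrivial X) (H : SimpleGraph X),
      Related F H ∧ Related H G := by
  have hn : 2 ≤ Nat.card U + Nat.card V + 1 := by
    have := Finite.one_lt_card (α := V)
    omega
  have hnt : Nontrivial (Fin (Nat.card U + Nat.card V + 1)) := Fin.nontrivial_iff_two_le.2 hn
  by_cases h1 : F ≠ ⊤ ∧ G ≠ ⊤
  · exact ⟨_, inferInstance, hnt, ⊤, related_symm (top_related F h1.1 _ (by omega)),
      top_related G h1.2 _ (by omega)⟩
  by_cases h2 : F ≠ ⊥ ∧ G ≠ ⊥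
  · exact ⟨_, inferInstance, hnt, ⊥, related_symm (bot_related F h2.1 _ (by omega)),
      bot_related G h2.2 _ (by omega)⟩
  -- one graph is complete, the other edgeless
  have htb : ∀ {A B : Type} [Finite A] [Finite B] [Nontrivial A] [Nontrivial B],
      Related (⊤ : SimpleGraph A) (⊥ : SimpleGraph B) := by
    intro A B _ _ _ _
    refine related_of_not _ _ (Or.inl rfl) (free_const _ _ ⟨fun f => ?_⟩)
      (free_const _ _ ⟨fun f => ?_⟩)
    · obtain ⟨x, y, hxy⟩ := exists_pair_ne B
      have := f.map_rel_iff' (a := x) (b := y)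
      exact this.1 (fun h => hxy (f.injective h))
    · obtain ⟨x, y, hxy⟩ := exists_pair_ne A
      have := f.map_rel_iff' (a := x) (b := y)
      exact this.2 hxy
  have hne : ∀ {A : Type} [Nontrivial A], (⊤ : SimpleGraph A) ≠ ⊥ := by
    intro A _
    exact top_ne_bot
  by_cases hF : F = ⊤
  · subst hF
    have hG : G = ⊥ := by
      by_contra hG
      exact h2 ⟨hne, hG⟩
    subst hG
    exact ⟨U, inferInstance, inferInstance, ⊤, top_self U, htb⟩
  · have hG : G = ⊤ := by
      by_contra hG
      exact h1 ⟨hF, hG⟩
    subst hG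
    have hF' : F = ⊥ := by
      by_contra hF'
      exact h2 ⟨hF', hne⟩
    subst hF'
    exact ⟨V, inferInstance, inferInstance, ⊤, related_symm htb, top_self V⟩

/-- **Main theorem.** For all finite graphs `F`, `G` with at least two vertices there is a graph
`H` (finite, at least two vertices) with `F ≍ H ≍ G`; hence a chain of length two exists and
`d_c(F, G) ≤ 2`. -/
theorem result (U V : Type) [Finite U] [Finite V] [Nontrivial U] [Nontrivial V]
    (F : SimpleGraph U) (G : SimpleGraph V) :
    (∃ (X : Type) (_ : Finite X) (_ : Nontrivial X) (H : SimpleGraph X),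
      Related F H ∧ Related H G) ∧
    Chain F G 2 ∧ chromaticDistance F G ≤ 2 := by
  have hch : Chain F G 2 := by
    obtain ⟨X, hX, hX', H, h1, h2⟩ := exists_between F G
    refine ⟨![U, X, V], ?_, ?_, fun i => match i with
      | 0 => F
      | 1 => H
      | 2 => G, ⟨SimpleGraph.Iso.refl⟩, ?_, ⟨SimpleGraph.Iso.refl⟩⟩
    · intro i
      fin_cases i
      · exact (inferInstance : Finite U)
      · exact hX
      · exact (inferInstance : Finite V)
    · intro i
      fin_cases i
      · exact (inferInstance : Nontrivial U)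
      · exact hX'
      · exact (inferInstance : Nontrivial V)
    · intro i
      fin_cases i
      · exact h1
      · exact h2
  exact ⟨exists_between F G, hch, Nat.sInf_le hch⟩

end Pool.Agent.Results.MP_37c966_co.DistanceAtMostTwo
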